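import Pool.Agent.Helper17_EU.StmtsF

/-! # STAGE: the stage theorem from small forests, elimination and insertion -/

open Set Metric Topology unitInterval

set_option linter.unusedSectionVars false

noncomputable section

namespace Pool.Agent.EU.H10

universe u

variable {X : Type u} [MetricSpace X]

theorem small_mono {r r' : ℝ} {A B : Set X} (h : Small r B) (hA : A ⊆ B) (hr : r ≤ r') :
    Small r' A := fun y hy z hz => (h y (hA hy) z (hA hz)).trans hr

theorem isTr_nil_iff {n : ℕ} {src tgt : Fin n → X} {x y : X} :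
    IsTr src tgt x [] y ↔ x = y := by
  constructor
  · rintro ⟨⟩
    rfl
  · rintro rfl
    exact IsTr.nil _

theorem isTr_cons_iff {n : ℕ} {src tgt : Fin n → X} {x y : X} {d : Fin n × Bool}
    {l : List (Fin n × Bool)} :
    IsTr src tgt x (d :: l) y ↔ x = dsrc src tgt d ∧ IsTr src tgt (dtgt src tgt d) l y := by
  constructor
  · rintro ⟨⟩
    exact ⟨rfl, by assumption⟩
  · rintro ⟨rfl, h⟩
    exact IsTr.cons _ _ _ h

/-- cut a trail at the first vertex in `A` -/
theorem cut {n : ℕ} {src tgt : Fin n → X} {A U : Finset X}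
    (hG : ∀ e, (src e ∈ A ∨ src e ∈ U) ∧ (tgt e ∈ A ∨ tgt e ∈ U)) {x a : X}
    {l : List (Fin n × Bool)} (h : IsTr src tgt x l a) (ha : a ∈ A) (hx : x ∈ A ∨ x ∈ U) :
    ∃ a' ∈ A, ∃ l', IsTr src tgt x l' a' ∧ (∀ d ∈ l', dsrc src tgt d ∈ U) ∧ ∀ d ∈ l', d ∈ l := by
  induction h with
  | nil x => exact ⟨x, ha, [], IsTr.nil _, by simp, by simp⟩
  | cons d l y h ih =>
    rcases hx with hx | hx
    · exact ⟨_, hx, [], IsTr.nil _, by simp, by simp⟩
    · have hd : dtgt src tgt d ∈ A ∨ dtgt src tgt d ∈ U := by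
        unfold dtgt
        split_ifs
        · exact (hG d.1).2
        · exact (hG d.1).1
      obtain ⟨a', ha', l', h1, h2, h3⟩ := ih ha hd
      refine ⟨a', ha', d :: l', IsTr.cons _ _ _ h1, ?_, ?_⟩
      · intro d' hd'
        rcases List.mem_cons.1 hd' with rfl | hd'
        · exact hx
        · exact h2 d' hd'
      · intro d' hd'
        rcases List.mem_cons.1 hd' with rfl | hd'
        · exact List.mem_cons_self
        · exact List.mem_cons_of_mem _ (h3 d' hd')

/-- vertices of the graph used for SF -/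
abbrev VV (A U : Finset X) : Type u := {x : X // x ∈ A ∨ x ∈ U}

/-- edges of the graph used for SF -/
abbrev EE {n : ℕ} (src tgt : Fin n → X) (U : Finset X) : Type :=
  {e : Fin n // src e ∈ U ∨ tgt e ∈ U}

theorem conv {n : ℕ} {src tgt : Fin n → X} {A U : Finset X}
    (hG : ∀ e, (src e ∈ A ∨ src e ∈ U) ∧ (tgt e ∈ A ∨ tgt e ∈ U))
    (e1 e2 : EE src tgt U → VV A U) (he1 : ∀ e, (e1 e).1 = src e.1) (he2 : ∀ e, (e2 e).1 = tgt e.1)
    {x a : X} {l : List (Fin n × Bool)} (h : IsTr src tgt x l a)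
    (hl : ∀ d ∈ l, dsrc src tgt d ∈ U) (v b : VV A U) (hv : v.1 = x) (hb : b.1 = a) :
    ∃ L : List (EE src tgt U × VV A U),
      List.IsChain (fun p q : EE src tgt U × VV A U => (e1 q.1 = p.2 ∧ e2 q.1 = q.2) ∨
          (e2 q.1 = p.2 ∧ e1 q.1 = q.2)) L ∧
      (∀ p ∈ L.head?, (e1 p.1 = v ∧ e2 p.1 = p.2) ∨ (e2 p.1 = v ∧ e1 p.1 = p.2)) ∧
      ((L.getLast?.map Prod.snd).getD v = b) ∧
      ∀ p ∈ L, (∃ d ∈ l, d.1 = p.1.1) ∧ (p.2.1 = src p.1.1 ∨ p.2.1 = tgt p.1.1) := by
  induction h generalizing v with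
  | nil x =>
    refine ⟨[], by simp, by simp, ?_, by simp⟩
    simp only [List.getLast?_nil, Option.map_none, Option.getD_none]
    exact Subtype.ext (hv.trans hb.symm)
  | cons d l y h ih =>
    have hd0 : dsrc src tgt d ∈ U := hl d List.mem_cons_self
    have hdE : src d.1 ∈ U ∨ tgt d.1 ∈ U := by
      unfold dsrc at hd0
      split_ifs at hd0
      · exact Or.inl hd0
      · exact Or.inr hd0
    have hdt : dtgt src tgt d ∈ A ∨ dtgt src tgt d ∈ U := by
      unfold dtgt
      split_ifs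
      · exact (hG d.1).2
      · exact (hG d.1).1
    obtain ⟨L, h1, h2, h3, h4⟩ := ih (fun d' hd' => hl d' (List.mem_cons_of_mem _ hd'))
      ⟨dtgt src tgt d, hdt⟩ rfl hb
    refine ⟨(⟨d.1, hdE⟩, ⟨dtgt src tgt d, hdt⟩) :: L, ?_, ?_, ?_, ?_⟩
    · rw [List.isChain_cons]
      exact ⟨h2, h1⟩
    · intro p hp
      simp only [List.head?_cons, Option.mem_def, Option.some.injEq] at hp
      subst hp
      rcases hb' : d.2 with _ | _
      · right
        refine ⟨Subtype.ext ?_, Subtype.ext ?_⟩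
        · rw [he2, hv]
          simp [dsrc, hb']
        · rw [he1]
          simp [dtgt, hb']
      · left
        refine ⟨Subtype.ext ?_, Subtype.ext ?_⟩
        · rw [he1, hv]
          simp [dsrc, hb']
        · rw [he2]
          simp [dtgt, hb']
    · rw [List.getLast?_cons]
      rw [← h3]
      cases L.getLast? with
      | none => simp
      | some q => simp
    · intro p hp
      rcases List.mem_cons.1 hp with rfl | hp
      · refine ⟨⟨d, List.mem_cons_self, rfl⟩, ?_⟩
        show dtgt src tgt d = src d.1 ∨ dtgt src tgt d = tgt d.1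
        unfold dtgt
        split_ifs
        · exact Or.inr rfl
        · exact Or.inl rfl
      · obtain ⟨⟨d', hd', h5⟩, h6⟩ := h4 p hp
        exact ⟨⟨d', List.mem_cons_of_mem _ hd', h5⟩, h6⟩

open Classical in
/-- the forest from SF -/
theorem forest (hSF : SFStmt.{u, u, 0} X) {K : ℕ} {D : Fin K → Set X} {sg ρ δ : ℝ}
    (hρ : 0 ≤ ρ) (hD : ∀ j, Small sg (D j)) (hc : (⋃ j, D j) = univ) (hK : 2 ^ (K + 3) * ρ ≤ sg)
    (hδ : 2 * sg ≤ δ) {n : ℕ} {src tgt : Fin n → X} {sp : Fin n → Set X} {A U : Finset X}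
    (hG : GraphOK src tgt sp A U)
    (hsm : ∀ e, (src e ∈ U ∨ tgt e ∈ U) → Small ρ (sp e))
    (hpath : ∀ u ∈ U, ∃ a ∈ A, ∃ l, IsTr src tgt u l a ∧ Small ρ (spL sp l)) (hU : U.Nonempty) :
    ∃ (par : X → Fin n × X) (root : X → X) (rk : X → ℕ), ForestOK src tgt sp A U par root rk δ := by
  obtain ⟨hG1, hG2, hG3⟩ := hG
  -- a default edge
  obtain ⟨u0, hu0⟩ := hU
  have hn : Nonempty (EE src tgt U) := by
    obtain ⟨a, ha, l, hl, -⟩ := hpath u0 hu0
    cases l with
    | nil =>
      rw [isTr_nil_iff] at hl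
      subst hl
      exact absurd hu0 (hG1 _ ha)
    | cons d l =>
      rw [isTr_cons_iff] at hl
      refine ⟨⟨d.1, ?_⟩⟩
      have h1 := hl.1
      rw [h1] at hu0
      unfold dsrc at hu0
      split_ifs at hu0
      · exact Or.inl hu0
      · exact Or.inr hu0
  obtain ⟨e0, he0⟩ := id hn
  let e1 : EE src tgt U → VV A U := fun e => ⟨src e.1, (hG2 e.1).1⟩
  let e2 : EE src tgt U → VV A U := fun e => ⟨tgt e.1, (hG2 e.1).2⟩
  have : Finite (VV A U) := by
    have : Finite ((↑(A ∪ U) : Set X)) := Finset.finite_toSet _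
    refine Finite.of_injective (fun v : VV A U => (⟨v.1, by
      have := v.2
      simpa using this⟩ : (↑(A ∪ U) : Set X))) ?_
    intro v w h
    exact Subtype.ext (congrArg (fun z : (↑(A ∪ U) : Set X) => z.1) h)
  obtain ⟨par, root, rk, h1, h2, h3, h4, h5⟩ := hSF K D sg ρ hρ hD hc hK (VV A U) (EE src tgt U)
    e1 e2 (fun v => v.1) (fun v => {v.1}) (fun e => sp e.1) {v | v.1 ∈ A}
    (fun v => rfl)
    (by
      intro e
      refine small_mono (hsm e.1 e.2) ?_ le_rfl
      intro z hz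
      rcases hz with (hz | hz) | hz
      · rw [mem_singleton_iff.1 hz]
        exact (hG3 e.1).1
      · exact hz
      · rw [mem_singleton_iff.1 hz]
        exact (hG3 e.1).2)
    (by
      intro v
      rcases v.2 with hv | hv
      · refine ⟨[], v, hv, by simp, by simp, by simp, ?_⟩
        intro y hy z hz
        simp only [List.not_mem_nil, false_and, exists_false, union_empty,
          mem_singleton_iff, ofPred_false] at hy hz
        rw [hy, hz, dist_self]
        exact hρ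
      · obtain ⟨a, ha, l, hl, hls⟩ := hpath v.1 hv
        obtain ⟨a', ha', l', hl', hU', hsub⟩ := cut hG2 hl ha (Or.inr hv)
        obtain ⟨L, g1, g2, g3, g4⟩ := conv (A := A) hG2 e1 e2 (fun _ => rfl) (fun _ => rfl) hl' hU'
          v ⟨a', Or.inl ha'⟩ rfl rfl
        refine ⟨L, ⟨a', Or.inl ha'⟩, ha', g1, g2, g3, ?_⟩
        refine small_mono hls ?_ le_rfl
        have hne : l' ≠ [] := by
          rintro rfl
          rw [isTr_nil_iff] at hl'
          rw [← hl'] at ha'
          exact hG1 _ ha' hv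
        rintro z (hz | ⟨p, hp, hz⟩)
        · rw [mem_singleton_iff.1 hz]
          obtain ⟨d, l'', rfl⟩ := List.exists_cons_of_ne_nil hne
          rw [isTr_cons_iff] at hl'
          refine ⟨d, hsub d List.mem_cons_self, ?_⟩
          rw [hl'.1]
          unfold dsrc
          split_ifs
          · exact (hG3 d.1).1
          · exact (hG3 d.1).2
        · obtain ⟨⟨d, hd, hd1⟩, hp2⟩ := g4 p hp
          refine ⟨d, hsub d hd, ?_⟩
          rw [hd1]
          rcases hz with hz | hz
          · exact hz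
          · rw [mem_singleton_iff.1 hz]
            rcases hp2 with hp2 | hp2
            · rw [hp2]
              exact (hG3 _).1
            · rw [hp2]
              exact (hG3 _).2)
  refine ⟨fun x => if h : x ∈ A ∨ x ∈ U then ((par ⟨x, h⟩).1.1, (par ⟨x, h⟩).2.1) else (e0, x),
    fun x => if h : x ∈ A ∨ x ∈ U then (root ⟨x, h⟩).1 else x,
    fun x => if h : x ∈ A ∨ x ∈ U then rk ⟨x, h⟩ else 0, ?_, ?_⟩
  · intro a ha
    have ha' : a ∈ A ∨ a ∈ U := Or.inl ha
    simp only [ha', dif_pos]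
    rw [h1 ⟨a, ha'⟩ ha]
  · intro u hu
    have hu' : u ∈ A ∨ u ∈ U := Or.inr hu
    have huA : (⟨u, hu'⟩ : VV A U) ∉ ({v | v.1 ∈ A} : Set (VV A U)) := by
      intro h
      exact hG1 u h hu
    obtain ⟨g1, g2, g3⟩ := h3 ⟨u, hu'⟩ huA
    have g4 := h2 ⟨u, hu'⟩
    have g5 := h4 ⟨u, hu'⟩
    have g6 := h5 ⟨u, hu'⟩ huA
    have hp2 := (par ⟨u, hu'⟩).2.2
    simp only [hu', dif_pos, hp2]
    refine ⟨?_, ?_, ?_, ?_, ?_, ?_, ?_⟩
    · rcases g1 with ⟨k1, k2⟩ | ⟨k1, k2⟩
      · left
        exact ⟨congrArg Subtype.val k1, congrArg Subtype.val k2⟩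
      · right
        exact ⟨congrArg Subtype.val k1, congrArg Subtype.val k2⟩
    · trivial
    · exact congrArg Subtype.val g2
    · exact g3
    · exact g4
    · exact closedBall_subset_closedBall hδ (g5 rfl)
    · exact g6.trans (closedBall_subset_closedBall hδ)

theorem core (hSF : SFStmt.{u, u, 0} X) (hE : ElimStmt X) (hI : InsStmt X)
    {KF KE KI : ℕ} {DF : Fin KF → Set X} {DE : Fin KE → Set X} {DI : Fin KI → Set X}
    {sF sE sI ρ δ s' : ℝ} (hρ : 0 ≤ ρ)
    (hDF : ∀ j, Small sF (DF j)) (hcF : (⋃ j, DF j) = univ) (hF : 2 ^ (KF + 3) * ρ ≤ sF)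
    (hδ : 2 * sF ≤ δ) (hρδ : ρ ≤ δ)
    (hDE : ∀ j, Small sE (DE j)) (hcE : (⋃ j, DE j) = univ) (hE' : 2 ^ (KE + 4) * δ ≤ sE)
    (hs' : 4 * sE ≤ s') (hδs : δ ≤ s')
    (hDI : ∀ j, Small sI (DI j)) (hcI : (⋃ j, DI j) = univ) (hI' : 2 ^ (KI + 3) * (8 * s') ≤ sI) :
    StageOK X (4 * sI) ρ := by
  intro n src tgt sp A U hG hsm hev hpath
  by_cases hU : U.Nonempty
  · obtain ⟨par, root, rk, hf⟩ := forest hSF hρ hDF hcF hF hδ hG hsm hpath hU
    have hδ0 : 0 ≤ δ := hρ.trans hρδ
    have hs0 : 0 ≤ s' := hδ0.trans hδs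
    obtain ⟨L, M, g1, g2, g3, g4, g5⟩ := hE KE DE sE δ hδ0 hDE hcE hE' n src tgt sp A U hG
      (fun e he => small_mono (hsm e he) subset_rfl hρδ) hev par root rk hf
    have hf' : ForestOK src tgt sp A U par root rk s' := by
      refine ⟨hf.1, fun u hu => ?_⟩
      obtain ⟨k1, k2, k3, k4, k5, k6, k7⟩ := hf.2 u hu
      exact ⟨k1, k2, k3, k4, k5, closedBall_subset_closedBall hδs k6,
        k7.trans (closedBall_subset_closedBall hδs)⟩
    obtain ⟨L', q1, q2, q3, q4⟩ := hI KI DI sI s' hs0 hDI hcI hI' n src tgt sp A U hG par root rk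
      hf' L M g1 g2 g3 (fun l hl => small_mono (g4 l hl) subset_rfl hs')
    exact ⟨L', q1, q2, q3, q4.trans g5⟩
  · rw [Finset.not_nonempty_iff_eq_empty] at hU
    subst hU
    refine ⟨[], by simp [OpenTrails], ?_, by simp, ?_⟩
    · simp [CoversInc]
    · simp [openCount]

/-- finite covers by small sets -/
theorem cells [CompactSpace X] {sg : ℝ} (h : 0 < sg) :
    ∃ (K : ℕ) (D : Fin K → Set X), (∀ j, Small sg (D j)) ∧ (⋃ j, D j) = univ := by
  obtain ⟨t, -, ht, hc⟩ := finite_cover_balls_of_compact (isCompact_univ (X := X))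
    (show (0 : ℝ) < sg / 2 by linarith)
  have := ht.fintype
  let f := Fintype.equivFin t
  refine ⟨Fintype.card t, fun j => ball (f.symm j).1 (sg / 2), ?_, ?_⟩
  · intro j y hy z hz
    have h1 := mem_ball.1 hy
    have h2 := mem_ball'.1 hz
    have := dist_triangle y (f.symm j).1 z
    linarith
  · rw [eq_univ_iff_forall]
    intro x
    have := hc (mem_univ x)
    simp only [mem_iUnion] at this
    obtain ⟨c, hct, hx⟩ := this
    exact mem_iUnion.2 ⟨f ⟨c, hct⟩, by simpa using hx⟩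

theorem stage [CompactSpace X] (hSF : SFStmt.{u, u, 0} X) (hE : ElimStmt X) (hI : InsStmt X) :
    StageStmt X := by
  constructor
  · intro s hs
    obtain ⟨KI, DI, hDI, hcI⟩ := cells (X := X) (show 0 < s / 4 by linarith)
    set s' := (s / 4) / (2 ^ (KI + 3) * 8) with hs'
    have hs0 : 0 < s' := by positivity
    obtain ⟨KE, DE, hDE, hcE⟩ := cells (X := X) (show 0 < s' / 4 by linarith)
    set δ := (s' / 4) / 2 ^ (KE + 4) with hδ
    have hδ0 : 0 < δ := by positivity
    obtain ⟨KF, DF, hDF, hcF⟩ := cells (X := X) (show 0 < δ / 2 by linarith)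
    set ρ := (δ / 2) / 2 ^ (KF + 3) with hρ
    have hρ0 : 0 < ρ := by positivity
    refine ⟨ρ, hρ0, ?_⟩
    have h1 : (1 : ℝ) ≤ 2 ^ (KF + 3) := one_le_pow₀ (by norm_num)
    have h2 : (1 : ℝ) ≤ 2 ^ (KE + 4) := one_le_pow₀ (by norm_num)
    have e1 : 2 ^ (KF + 3) * ρ = δ / 2 := by
      rw [hρ]
      field_simp
    have e2 : 2 ^ (KE + 4) * δ = s' / 4 := by
      rw [hδ]
      field_simp
    have e3 : 2 ^ (KI + 3) * (8 * s') = s / 4 := by
      rw [hs']
      field_simp
    have := core hSF hE hI hρ0.le hDF hcF e1.le (show 2 * (δ / 2) ≤ δ by linarith)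
      (show ρ ≤ δ by nlinarith) hDE hcE e2.le (show 4 * (s' / 4) ≤ s' by linarith)
      (show δ ≤ s' by nlinarith) hDI hcI e3.le
    have e4 : 4 * (s / 4) = s := by ring
    rwa [e4] at this
  · intro s hs ρ n src tgt sp A U hG hsm hev hpath
    -- everything is small
    have hall : ∀ B : Set X, Small s B := fun B => small_mono hs (subset_univ B) le_rfl
    by_cases hX : Nonempty X
    · obtain ⟨x0⟩ := hX
      have hs0 : 0 ≤ s := by
        have := hs x0 (mem_univ _) x0 (mem_univ _)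
        rwa [dist_self] at this
      have hDu : ∀ t : ℝ, s ≤ t → ∀ j : Fin 1, Small t ((fun _ : Fin 1 => (univ : Set X)) j) :=
        fun t ht j => small_mono hs subset_rfl ht
      have hcu : (⋃ j : Fin 1, (fun _ : Fin 1 => (univ : Set X)) j) = univ :=
        iUnion_const _
      have := core hSF hE hI (KF := 1) (KE := 1) (KI := 1) (DF := fun _ => univ)
        (DE := fun _ => univ) (DI := fun _ => univ) (sF := 16 * s) (sE := 1024 * s)
        (sI := 2 ^ 4 * (8 * (4096 * s))) (ρ := s) (δ := 32 * s) (s' := 4096 * s) hs0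
        (hDu _ (by linarith)) hcu (by norm_num) (by linarith) (by linarith)
        (hDu _ (by linarith)) hcu (by norm_num; linarith) (by linarith) (by linarith)
        (hDu _ (by norm_num; linarith)) hcu (le_of_eq (by ring))
      obtain ⟨L, g1, g2, -, g4⟩ := this n src tgt sp A U hG (fun e _ => hall _) hev
        (fun u hu => by
          obtain ⟨a, ha, l, hl, -⟩ := hpath u hu
          exact ⟨a, ha, l, hl, hall _⟩)
      exact ⟨L, g1, g2, fun l _ => hall _, g4⟩
    · refine ⟨[], by simp [OpenTrails], ?_, by simp, by simp [openCount]⟩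
      refine ⟨by simp, ?_⟩
      intro e
      exact absurd ⟨src e⟩ hX

end Pool.Agent.EU.H10
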