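import Pool.Agent.Helper17_EU.StmtsF
import Pool.Agent.Helper17_EU.WBasics
import Pool.Agent.Helper10_EU.Stage

/-! # STAGEW: the stage theorem for typed walks -/

open Set Metric Topology unitInterval

set_option linter.unusedSectionVars false

noncomputable section

namespace Pool.Agent.EU.H10

universe u v

variable {X : Type u} [MetricSpace X] {ι : Type v}

/-- chains of typed walks -/
def IsCh : X → List (TW X ι) → X → Prop
  | x, [], y => x = y
  | x, w :: l, y => w.1 = x ∧ IsCh w.2.2 l y

theorem isCh_append {x y : X} {l1 l2 : List (TW X ι)} :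
    IsCh x (l1 ++ l2) y ↔ ∃ z, IsCh x l1 z ∧ IsCh z l2 y := by
  induction l1 generalizing x with
  | nil => simp [IsCh]
  | cons w l ih =>
    simp only [List.cons_append, IsCh, ih]
    constructor
    · rintro ⟨h, z, h1, h2⟩
      exact ⟨z, ⟨h, h1⟩, h2⟩
    · rintro ⟨z, ⟨h, h1⟩, h2⟩
      exact ⟨h, z, h1, h2⟩

theorem isCh_isW {𝓔 : EdgeSys X ι} {l : List (TW X ι)} : ∀ {x y : X}, IsCh x l y →
    (∀ w ∈ l, 𝓔.TWok w) → 𝓔.IsW x (l.map (fun w => w.2.1)).flatten y := by
  induction l with
  | nil =>
    intro x y h _
    have : x = y := h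
    subst this
    exact EdgeSys.IsW.nil _
  | cons w l ih =>
    intro x y h hw
    obtain ⟨h1, h2⟩ := h
    simp only [List.map_cons, List.flatten_cons]
    subst h1
    exact EdgeSys.IsW.append (hw w List.mem_cons_self)
      (ih h2 (fun w' hw' => hw w' (List.mem_cons_of_mem _ hw')))

theorem isCh_rel (r : Setoid X) {l : List (TW X ι)} : ∀ {x y : X}, IsCh x l y →
    (∀ w ∈ l, r w.1 w.2.2) → r x y := by
  induction l with
  | nil =>
    intro x y h _
    have : x = y := h
    subst this
    exact r.refl _
  | cons w l ih =>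
    intro x y h hw
    obtain ⟨h1, h2⟩ := h
    subst h1
    exact r.trans (hw w List.mem_cons_self)
      (ih h2 (fun w' hw' => hw w' (List.mem_cons_of_mem _ hw')))

theorem ins_one {x y : X} {l : List (TW X ι)} (h : IsCh x l y) {q d : TW X ι} (hq : q ∈ l)
    (hd : q.1 = d.1) (hd2 : d.2.2 = d.1) : ∃ l', IsCh x l' y ∧ l'.Perm (d :: l) := by
  obtain ⟨l1, l2, rfl⟩ := List.append_of_mem hq
  rw [isCh_append] at h
  obtain ⟨z, h1, h2⟩ := h
  refine ⟨l1 ++ d :: q :: l2, ?_, ?_⟩
  · rw [isCh_append]
    refine ⟨z, h1, ?_, ?_⟩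
    · rw [← hd]
      exact h2.1
    · rw [hd2, ← hd]
      exact ⟨rfl, h2.2⟩
  · exact List.perm_middle

theorem ins_many (ins : List (TW X ι)) : ∀ {x y : X} {l : List (TW X ι)}, IsCh x l y →
    (∀ d ∈ ins, d.2.2 = d.1 ∧ ∃ q ∈ l, q.1 = d.1) →
    ∃ l', IsCh x l' y ∧ l'.Perm (l ++ ins) := by
  induction ins with
  | nil =>
    intro x y l h _
    exact ⟨l, h, by simp⟩
  | cons d ins ih =>
    intro x y l h hd
    obtain ⟨h1, q, hq, h2⟩ := hd d List.mem_cons_self
    obtain ⟨l', h3, h4⟩ := ins_one h hq h2 h1
    obtain ⟨l'', h5, h6⟩ := ih h3 (fun d' hd' => by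
      obtain ⟨k1, q', hq', k2⟩ := hd d' (List.mem_cons_of_mem _ hd')
      exact ⟨k1, q', h4.mem_iff.2 (List.mem_cons_of_mem _ hq'), k2⟩)
    refine ⟨l'', h5, h6.trans ?_⟩
    exact (h4.append_right ins).trans (by
      simpa using (List.perm_middle (l₁ := l) (a := d) (l₂ := ins)).symm)

/-- orientation -/
def orient (w : TW X ι) (b : Bool) : TW X ι := if b then w else (w.2.2, revW w.2.1, w.1)

theorem orient_ok {𝓔 : EdgeSys X ι} {w : TW X ι} (h : 𝓔.TWok w) (b : Bool) :
    𝓔.TWok (orient w b) := by
  unfold orient
  split_ifs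
  · exact h
  · exact EdgeSys.IsW.rev h

theorem orient_sup {𝓔 : EdgeSys X ι} (w : TW X ι) (b : Bool) :
    𝓔.supW (orient w b).2.1 = 𝓔.supW w.2.1 := by
  unfold orient
  split_ifs
  · rfl
  · simp

theorem asm_orient {β : Type*} (f : β → TW X ι) (g : β → Bool) (M : List β) :
    Asm (Multiset.ofList (M.map (fun d => (f d).2.1)))
      (Multiset.ofList (M.map (fun d => (orient (f d) (g d)).2.1))) := by
  induction M with
  | nil => exact Asm.refl _
  | cons d M ih =>
    simp only [List.map_cons]
    rw [← Multiset.cons_coe, ← Multiset.cons_coe, ← Multiset.singleton_add,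
      ← Multiset.singleton_add]
    refine Asm.add ?_ ih
    unfold orient
    split_ifs
    · exact Asm.refl _
    · exact Asm.rev1 _

open Classical in
theorem degW_orient {β : Type*} (f : β → TW X ι) (g : β → Bool) (M : List β) (v : X) :
    EdgeSys.degW (Multiset.ofList (M.map (fun d => orient (f d) (g d)))) v =
      EdgeSys.degW (Multiset.ofList (M.map f)) v := by
  induction M with
  | nil => rfl
  | cons d M ih =>
    simp only [List.map_cons]
    rw [← Multiset.cons_coe, ← Multiset.cons_coe, EdgeSys.degW_cons, EdgeSys.degW_cons, ih]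
    unfold orient
    split_ifs <;> simp_all

open Classical in
theorem degW_chain {U : Set X} {v : X} (hv : v ∉ U) (l : List (TW X ι)) :
    ∀ (p : TW X ι) (a b : X), IsCh a (p :: l) b → (∀ q ∈ l, q.1 ∈ U) →
      EdgeSys.degW (Multiset.ofList (p :: l)) v =
        (if a = v then 1 else 0) + (if b = v then 1 else 0) := by
  induction l with
  | nil =>
    intro p a b h _
    obtain ⟨h1, h2⟩ := h
    have h3 : p.2.2 = b := h2
    rw [← Multiset.cons_coe, EdgeSys.degW_cons]
    subst h1 h3
    simp
  | cons q l ih =>
    intro p a b h hU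
    obtain ⟨h1, h2⟩ := h
    have hq : q.1 = p.2.2 := h2.1
    have hqv : q.1 ≠ v := fun h => hv (h ▸ hU q List.mem_cons_self)
    have := ih q p.2.2 b h2 (fun q' hq' => hU q' (List.mem_cons_of_mem _ hq'))
    rw [← Multiset.cons_coe, EdgeSys.degW_cons, this, ← hq, if_neg hqv, h1]
    simp

open Classical in
theorem card_filter_get {β : Type*} (l : List β) (p : β → Prop) :
    (Finset.univ.filter (fun e : Fin l.length => p (l.get e))).card = l.countP (fun b => p b) := by
  rw [Finset.card_def, Finset.filter_val, ← Multiset.countP_eq_card_filter]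
  have h : Multiset.map l.get Finset.univ.val = (l : Multiset β) := by
    rw [Fin.univ_val_map, List.ofFn_get]
  have h2 : Multiset.countP p (Multiset.map l.get Finset.univ.val) =
      Multiset.countP (fun e : Fin l.length => p (l.get e)) Finset.univ.val := by
    rw [Multiset.countP_map, Multiset.countP_eq_card_filter]
  rw [← h2, h]
  simp [Multiset.coe_countP]

/-- assignment hitting all of `O` -/
theorem assign {α β : Type*} (O : Finset β) (K : Finset α) (h : O.card ≤ K.card) (dflt : α → β) :
    ∃ g : α → β, (∀ k, g k ∈ O ∨ g k = dflt k) ∧ ∀ i ∈ O, ∃ k ∈ K, g k = i := by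
  classical
  obtain ⟨K', hK', hc⟩ := Finset.exists_subset_card_eq h
  let e : K' ≃ O := Finset.equivOfCardEq hc
  refine ⟨fun k => if hk : k ∈ K' then (e ⟨k, hk⟩).1 else dflt k, ?_, ?_⟩
  · intro k
    by_cases hk : k ∈ K'
    · left
      simp only [hk, dif_pos]
      exact (e ⟨k, hk⟩).2
    · right
      simp only [hk, dif_neg, not_false_eq_true]
  · intro i hi
    refine ⟨(e.symm ⟨i, hi⟩).1, hK' (e.symm ⟨i, hi⟩).2, ?_⟩
    have : (e.symm ⟨i, hi⟩).1 ∈ K' := (e.symm ⟨i, hi⟩).2
    simp only [this, dif_pos]
    simp

theorem isTr_mem {n : ℕ} {src tgt : Fin n → X} {sp : Fin n → Set X}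
    (hsp : ∀ e, src e ∈ sp e ∧ tgt e ∈ sp e) {x y : X} {l : List (Fin n × Bool)}
    (h : IsTr src tgt x l y) (hl : l ≠ []) : x ∈ spL sp l ∧ y ∈ spL sp l := by
  induction h with
  | nil x => exact absurd rfl hl
  | cons d l y h ih =>
    refine ⟨⟨d, List.mem_cons_self, ?_⟩, ?_⟩
    · unfold dsrc
      split_ifs
      · exact (hsp d.1).1
      · exact (hsp d.1).2
    · by_cases hl' : l = []
      · subst hl'
        rw [isTr_nil_iff] at h
        subst h
        refine ⟨d, List.mem_cons_self, ?_⟩
        unfold dtgt
        split_ifs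
        · exact (hsp d.1).2
        · exact (hsp d.1).1
      · obtain ⟨d', hd', h'⟩ := (ih hl').2
        exact ⟨d', List.mem_cons_of_mem _ hd', h'⟩

theorem isTr_unique {n : ℕ} {src tgt : Fin n → X} {x y x' y' : X} {l : List (Fin n × Bool)}
    (h : IsTr src tgt x l y) (h' : IsTr src tgt x' l y') (hl : l ≠ []) : x = x' ∧ y = y' := by
  induction h generalizing x' with
  | nil x => exact absurd rfl hl
  | cons d l y h ih =>
    rw [isTr_cons_iff] at h'
    refine ⟨h'.1.symm, ?_⟩
    by_cases hl' : l = []
    · subst hl'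
      have h1 := h'.2
      rw [isTr_nil_iff] at h h1
      rw [← h, ← h1]
    · exact (ih h'.2 hl').2

theorem isTr_append {n : ℕ} {src tgt : Fin n → X} {x y : X} {l1 l2 : List (Fin n × Bool)} :
    IsTr src tgt x (l1 ++ l2) y ↔ ∃ z, IsTr src tgt x l1 z ∧ IsTr src tgt z l2 y := by
  induction l1 generalizing x with
  | nil => simp [isTr_nil_iff]
  | cons w l ih =>
    simp only [List.cons_append, isTr_cons_iff, ih]
    constructor
    · rintro ⟨h, z, h1, h2⟩
      exact ⟨z, ⟨h, h1⟩, h2⟩
    · rintro ⟨z, ⟨h, h1⟩, h2⟩
      exact ⟨h, z, h1, h2⟩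

section main

open Classical

variable (𝓔 : EdgeSys X ι)

/-- the indexed data -/
theorem wchain_cut {P : Multiset (TW X ι)} {A U : Finset X}
    (hPe : ∀ w ∈ P, (w.1 ∈ A ∨ w.1 ∈ U) ∧ (w.2.2 ∈ A ∨ w.2.2 ∈ U))
    {n : ℕ} (f : Fin n → TW X ι)
    (hf : ∀ w ∈ P, EdgeSys.Inc (↑U : Set X) w → ∃ e, f e = w) {x a : X} {l : List (TW X ι)}
    (h : EdgeSys.WChain P x l a) (ha : a ∈ A) (hx : x ∈ A ∨ x ∈ U) :
    ∃ a' ∈ A, ∃ l' : List (Fin n × Bool),
      IsTr (fun e => (f e).1) (fun e => (f e).2.2) x l' a' ∧ ∀ d ∈ l', f d.1 ∈ l := by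
  induction h with
  | nil x => exact ⟨x, ha, [], IsTr.nil _, by simp⟩
  | fwd w l y hw h ih =>
    rcases hx with hx | hx
    · exact ⟨_, hx, [], IsTr.nil _, by simp⟩
    · obtain ⟨a', ha', l', h1, h2⟩ := ih ha (hPe w hw).2
      obtain ⟨e, he⟩ := hf w hw (Or.inl hx)
      refine ⟨a', ha', (e, true) :: l', ?_, ?_⟩
      · rw [isTr_cons_iff]
        refine ⟨?_, ?_⟩
        · simp [dsrc, he]
        · simpa [dtgt, he] using h1
      · intro d hd
        rcases List.mem_cons.1 hd with rfl | hd
        · simp [he]
        · exact List.mem_cons_of_mem _ (h2 d hd)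
  | bwd w l y hw h ih =>
    rcases hx with hx | hx
    · exact ⟨_, hx, [], IsTr.nil _, by simp⟩
    · obtain ⟨a', ha', l', h1, h2⟩ := ih ha (hPe w hw).1
      obtain ⟨e, he⟩ := hf w hw (Or.inr hx)
      refine ⟨a', ha', (e, false) :: l', ?_, ?_⟩
      · rw [isTr_cons_iff]
        refine ⟨?_, ?_⟩
        · simp [dsrc, he]
        · simpa [dtgt, he] using h1
      · intro d hd
        rcases List.mem_cons.1 hd with rfl | hd
        · simp [he]
        · exact List.mem_cons_of_mem _ (h2 d hd)

theorem mem_tsup_left (w : TW X ι) : w.1 ∈ 𝓔.tsup w := Or.inr (by simp)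

theorem mem_tsup_right (w : TW X ι) : w.2.2 ∈ 𝓔.tsup w := Or.inr (by simp)

theorem asm_flat (LL : List (List (List (Step X ι)))) :
    Asm (Multiset.ofList LL.flatten) (Multiset.ofList (LL.map List.flatten)) := by
  induction LL with
  | nil => exact Asm.refl _
  | cons a LL ih =>
    rw [List.flatten_cons, List.map_cons, ← Multiset.coe_add, ← Multiset.cons_coe,
      ← Multiset.singleton_add]
    exact Asm.add (Asm.flatten a) ih

theorem perm_flat {α β : Type*} {F G H : α → List β} (h : ∀ i, (F i).Perm (G i ++ H i))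
    (l : List α) : (l.map F).flatten.Perm ((l.map G).flatten ++ (l.map H).flatten) := by
  induction l with
  | nil => simp
  | cons i l ih =>
    simp only [List.map_cons, List.flatten_cons]
    refine ((h i).append ih).trans ?_
    simp only [List.append_assoc]
    refine List.Perm.append_left _ ?_
    rw [← List.append_assoc, ← List.append_assoc]
    exact List.Perm.append_right _ List.perm_append_comm

theorem degW_flat {α : Type*} (F : α → List (TW X ι)) (l : List α) (v : X) :
    EdgeSys.degW (Multiset.ofList (l.map F).flatten) v =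
      (l.map (fun i => EdgeSys.degW (Multiset.ofList (F i)) v)).sum := by
  induction l with
  | nil => simp
  | cons i l ih =>
    simp only [List.map_cons, List.flatten_cons, List.sum_cons]
    rw [← Multiset.coe_add, EdgeSys.degW_add, ih]

theorem degW_map {α : Type*} (t : α → TW X ι) (l : List α) (v : X) :
    EdgeSys.degW (Multiset.ofList (l.map t)) v =
      (l.map (fun i => (if (t i).1 = v then 1 else 0) + (if (t i).2.2 = v then 1 else 0))).sum := by
  induction l with
  | nil => simp
  | cons i l ih =>
    simp only [List.map_cons, List.sum_cons]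
    rw [← Multiset.cons_coe, EdgeSys.degW_cons, ih]

theorem perm_fibers {m r : ℕ} (τ : Fin m → Fin r) :
    (((List.finRange r).map (fun i => (List.finRange m).filter (fun k => τ k = i))).flatten).Perm
      (List.finRange m) := by
  refine (List.perm_ext_iff_of_nodup ?_ (List.nodup_finRange m)).2 ?_
  · rw [List.nodup_flatten]
    constructor
    · intro l hl
      simp only [List.mem_map, List.mem_finRange, true_and] at hl
      obtain ⟨i, rfl⟩ := hl
      exact (List.nodup_finRange m).filter _
    · rw [List.pairwise_map]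
      refine (List.nodup_finRange r).imp ?_
      intro i j hij k hk hk'
      simp only [List.mem_filter, List.mem_finRange, true_and, decide_eq_true_eq] at hk hk'
      exact hij (hk.symm.trans hk')
  · intro k
    simp [List.mem_flatten]

theorem stageW : 𝓔.StageWStmt := by
  intro s ρ hS P D A U δ hδ hAU hP hD hsm hev hpath
  set N := 3 * (A.card + U.card) ^ 2 with hN
  set P' := P.filter (EdgeSys.Inc (↑U : Set X)) with hP'
  let Pl := P'.toList
  have hPl : (Multiset.ofList Pl) = P' := Multiset.coe_toList P'
  let n := Pl.length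
  let f : Fin n → TW X ι := fun e => Pl.get e
  let src : Fin n → X := fun e => (f e).1
  let tgt : Fin n → X := fun e => (f e).2.2
  let sp : Fin n → Set X := fun e => 𝓔.tsup (f e)
  have hfP : ∀ e, f e ∈ P ∧ EdgeSys.Inc (↑U : Set X) (f e) := by
    intro e
    have h1 : f e ∈ Pl := List.get_mem _ _
    have h2 : f e ∈ P' := by
      rw [← hPl]
      exact h1
    exact Multiset.mem_filter.1 h2
  have hf : ∀ w ∈ P, EdgeSys.Inc (↑U : Set X) w → ∃ e, f e = w := by
    intro w hw hi
    have h2 : w ∈ P' := Multiset.mem_filter.2 ⟨hw, hi⟩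
    rw [← hPl] at h2
    exact List.mem_iff_get.1 h2
  have hG : GraphOK src tgt sp A U :=
    ⟨hAU, fun e => (hP _ (hfP e).1).2, fun e => ⟨mem_tsup_left 𝓔 _, mem_tsup_right 𝓔 _⟩⟩
  have hdeg : ∀ v, degF src tgt v = EdgeSys.degW P' v := by
    intro v
    rw [← hPl]
    unfold degF EdgeSys.degW
    rw [Multiset.coe_countP, Multiset.coe_countP]
    congr 1
    · exact card_filter_get Pl (fun w => w.1 = v)
    · exact card_filter_get Pl (fun w => w.2.2 = v)
  have hdegU : ∀ u ∈ U, EdgeSys.degW P' u = EdgeSys.degW P u := by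
    intro u hu
    unfold EdgeSys.degW
    rw [hP', Multiset.countP_filter, Multiset.countP_filter]
    congr 1
    · refine Multiset.countP_congr rfl ?_
      intro w hw
      simp only [eq_iff_iff, and_iff_left_iff_imp]
      intro h
      left
      rw [h]
      exact hu
    · refine Multiset.countP_congr rfl ?_
      intro w hw
      simp only [eq_iff_iff, and_iff_left_iff_imp]
      intro h
      right
      rw [h]
      exact hu
  have hcut : ∀ u ∈ U, ∃ a' ∈ A, ∃ l' : List (Fin n × Bool),
      IsTr src tgt u l' a' ∧ Small ρ (spL sp l') := by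
    intro u hu
    obtain ⟨a, ha, l, hl, hls⟩ := hpath u hu
    obtain ⟨a', ha', l', h1, h2⟩ := wchain_cut (A := A) (U := U)
      (fun w hw => (hP w hw).2) f hf hl ha (Or.inr hu)
    refine ⟨a', ha', l', h1, small_mono hls ?_ le_rfl⟩
    rintro z ⟨d, hd, hz⟩
    exact Or.inr ⟨_, h2 d hd, hz⟩
  obtain ⟨L, hL1, hL2, hL3, hL4⟩ := hS n src tgt sp A U hG
    (fun e _ => hsm _ (hfP e).1 (hfP e).2)
    (fun u hu => by
      rw [hdeg, hdegU u hu]
      exact hev u hu) hcut
  -- oriented pieces
  let pc : Fin n × Bool → TW X ι := fun d => orient (f d.1) d.2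
  have pc1 : ∀ d, (pc d).1 = dsrc src tgt d := by
    intro d
    show (orient (f d.1) d.2).1 = _
    unfold orient dsrc
    split_ifs <;> rfl
  have pc2 : ∀ d, (pc d).2.2 = dtgt src tgt d := by
    intro d
    show (orient (f d.1) d.2).2.2 = _
    unfold orient dtgt
    split_ifs <;> rfl
  have pcok : ∀ d, 𝓔.TWok (pc d) := fun d => orient_ok (hP _ (hfP d.1).1).1 d.2
  have trch : ∀ {x y : X} {l : List (Fin n × Bool)}, IsTr src tgt x l y →
      IsCh x (l.map pc) y := by
    intro x y l h
    induction h with
    | nil x => exact rfl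
    | cons d l y h ih => exact ⟨pc1 d, by rw [pc2]; exact ih⟩
  -- the trails
  have hdata : ∀ i : Fin L.length, ∃ (a b : X) (d0 d1 : Fin n × Bool) (rest : List (Fin n × Bool)),
      a ∈ A ∧ b ∈ A ∧ IsTr src tgt a (L.get i) b ∧ L.get i = d0 :: d1 :: rest := by
    intro i
    obtain ⟨⟨a, ha, b, hb, h⟩, h2, -⟩ := hL1 (L.get i) (List.get_mem _ _)
    match hl : L.get i, h2 with
    | [], h2 => simp at h2
    | [_], h2 => simp at h2
    | d0 :: d1 :: rest, _ =>
      exact ⟨a, b, d0, d1, rest, ha, hb, by rw [← hl]; exact h, rfl⟩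
  choose a b d0 d1 rest ha hb htr hdec using hdata
  have hinner : ∀ i, ∀ d ∈ d1 i :: rest i, dsrc src tgt d ∈ U := by
    intro i d hd
    obtain ⟨-, -, h3⟩ := hL1 (L.get i) (List.get_mem _ _)
    obtain ⟨l1, l2, h4⟩ := List.append_of_mem hd
    refine h3 (d0 i :: l1) d l2 ?_ (by simp)
    rw [hdec, h4]
    rfl
  -- every vertex of `U` is an inner vertex of some trail
  have hcov : ∀ u ∈ U, ∃ i, ∃ d ∈ d1 i :: rest i, dsrc src tgt d = u := by
    intro u hu
    obtain ⟨a', ha', l', hl', -⟩ := hcut u hu
    cases l' with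
    | nil =>
      rw [isTr_nil_iff] at hl'
      subst hl'
      exact absurd hu (hAU _ ha')
    | cons d l'' =>
      rw [isTr_cons_iff] at hl'
      have hdu := hl'.1
      have hinc : src d.1 ∈ U ∨ tgt d.1 ∈ U := by
        rw [hdu] at hu
        unfold dsrc at hu
        split_ifs at hu
        · exact Or.inl hu
        · exact Or.inr hu
      have h1 := (hL2.2 d.1).2 hinc
      rw [List.mem_map] at h1
      obtain ⟨dd, hdd, hdd1⟩ := h1
      rw [List.mem_flatten] at hdd
      obtain ⟨l, hl, hddl⟩ := hdd
      obtain ⟨i, rfl⟩ := List.mem_iff_get.1 hl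
      refine ⟨i, ?_⟩
      have hcase : dsrc src tgt dd = u ∨ dtgt src tgt dd = u := by
        rw [hdu]
        unfold dsrc dtgt
        rw [hdd1]
        rcases dd.2 with _ | _ <;> rcases d.2 with _ | _ <;> simp
      rcases hcase with hc | hc
      · rw [hdec] at hddl
        rcases List.mem_cons.1 hddl with h | h
        · exfalso
          have h2 := htr i
          rw [hdec, isTr_cons_iff, ← h, hc] at h2
          exact hAU _ (ha i) (h2.1 ▸ hu)
        · exact ⟨dd, h, hc⟩
      · obtain ⟨l1, l2, h3⟩ := List.append_of_mem hddl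
        have h2 := htr i
        rw [h3, isTr_append] at h2
        obtain ⟨z, h4, h5⟩ := h2
        rw [isTr_cons_iff] at h5
        cases l2 with
        | nil =>
          exfalso
          have h6 := h5.2
          rw [isTr_nil_iff, hc] at h6
          exact hAU _ (hb i) (h6 ▸ hu)
        | cons dd' l2 =>
          have h6 := h5.2
          rw [isTr_cons_iff] at h6
          refine ⟨dd', ?_, by rw [← h6.1, hc]⟩
          rw [hdec] at h3
          cases l1 with
          | nil =>
            simp only [List.nil_append, List.cons.injEq] at h3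
            rw [h3.2.1]
            exact List.mem_cons_self
          | cons c l1 =>
            simp only [List.cons_append, List.cons.injEq] at h3
            rw [h3.2]
            simp
  -- the assignment of the decorations
  let Dl := D.toList
  have hDl : (Multiset.ofList Dl) = D := Multiset.coe_toList D
  have hDm : ∀ k : Fin Dl.length, Dl.get k ∈ D := by
    intro k
    rw [← hDl]
    exact List.get_mem _ _
  have hdflt : ∀ k : Fin Dl.length, ∃ i, ∃ d ∈ d1 i :: rest i, dsrc src tgt d = (Dl.get k).1 :=
    fun k => hcov _ (hD _ (hDm k)).2.1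
  choose dflt hdflt using hdflt
  let O : X → Finset (Fin L.length) := fun u => Finset.univ.filter
    (fun i => (¬ ∃ x, IsTr src tgt x (L.get i) x) ∧ dsrc src tgt (d1 i) = u)
  let Kf : X → Finset (Fin Dl.length) := fun u => Finset.univ.filter (fun k => (Dl.get k).1 = u)
  have hOc : ∀ u, (O u).card ≤ N := by
    intro u
    refine le_trans ?_ hL4
    have h2 := card_filter_get L (fun l => ¬ ∃ x, IsTr src tgt x l x)
    refine le_trans (Finset.card_le_card ?_) (le_of_eq (h2.trans ?_))
    · intro i hi
      simp only [O, Finset.mem_filter, Finset.mem_univ, true_and] at hi ⊢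
      exact hi.1
    · unfold openCount
      refine List.countP_congr ?_
      intro l _
      simp only [decide_eq_true_eq]
  have hKc : ∀ u, (Kf u).card = D.countP (fun d => d.1 = u) := by
    intro u
    rw [← hDl, Multiset.coe_countP]
    exact card_filter_get Dl (fun d => d.1 = u)
  have hg : ∀ u, ∃ g : Fin Dl.length → Fin L.length,
      (∀ k, (Dl.get k).1 = u → ∃ d ∈ d1 (g k) :: rest (g k), dsrc src tgt d = u) ∧
      (N ≤ (Kf u).card → ∀ i ∈ O u, ∃ k ∈ Kf u, g k = i) := by
    intro u
    by_cases h : (O u).card ≤ (Kf u).card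
    · obtain ⟨g, h1, h2⟩ := assign (O u) (Kf u) h dflt
      refine ⟨g, ?_, fun _ => h2⟩
      intro k hk
      rcases h1 k with h3 | h3
      · simp only [O, Finset.mem_filter, Finset.mem_univ, true_and] at h3
        exact ⟨d1 (g k), List.mem_cons_self, h3.2⟩
      · rw [h3, ← hk]
        exact hdflt k
    · refine ⟨dflt, ?_, fun h2 => absurd ((hOc u).trans h2) h⟩
      intro k hk
      rw [← hk]
      exact hdflt k
  choose g hg1 hg2 using hg
  let τ : Fin Dl.length → Fin L.length := fun k => g (Dl.get k).1 k
  let ins : Fin L.length → List (TW X ι) := fun i =>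
    ((List.finRange Dl.length).filter (fun k => τ k = i)).map Dl.get
  have hins : ∀ i, ∀ d ∈ ins i, d ∈ D ∧ ∃ q ∈ (d1 i :: rest i).map pc, q.1 = d.1 := by
    intro i d hd
    simp only [ins, List.mem_map, List.mem_filter, List.mem_finRange, true_and,
      decide_eq_true_eq] at hd
    obtain ⟨k, hk, rfl⟩ := hd
    refine ⟨hDm k, ?_⟩
    obtain ⟨dd, h1, h2⟩ := hg1 (Dl.get k).1 k rfl
    have hk' : g (Dl.get k).1 k = i := hk
    rw [hk'] at h1
    exact ⟨pc dd, List.mem_map_of_mem h1, by rw [pc1, h2]⟩
  -- the new chains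
  have hch : ∀ i, ∃ l' : List (TW X ι), IsCh (dtgt src tgt (d0 i)) l' (b i) ∧
      l'.Perm ((d1 i :: rest i).map pc ++ ins i) := by
    intro i
    have h1 := htr i
    rw [hdec, isTr_cons_iff] at h1
    refine ins_many (ins i) (trch h1.2) ?_
    intro d hd
    obtain ⟨h2, q, hq, h3⟩ := hins i d hd
    exact ⟨(hD d h2).2.2.1, q, hq, h3⟩
  choose l' hl'1 hl'2 using hch
  let PC : Fin L.length → List (TW X ι) := fun i => pc (d0 i) :: l' i
  have hPCp : ∀ i, (PC i).Perm ((L.get i).map pc ++ ins i) := by
    intro i
    rw [hdec]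
    exact List.Perm.cons _ (hl'2 i)
  have hPCc : ∀ i, IsCh (a i) (PC i) (b i) := by
    intro i
    have h1 := htr i
    rw [hdec, isTr_cons_iff] at h1
    refine ⟨?_, ?_⟩
    · rw [pc1, ← h1.1]
    · rw [pc2]
      exact hl'1 i
  have hPCok : ∀ i, ∀ w ∈ PC i, 𝓔.TWok w := by
    intro i w hw
    rcases List.mem_append.1 ((hPCp i).mem_iff.1 hw) with h | h
    · obtain ⟨d, -, rfl⟩ := List.mem_map.1 h
      exact pcok d
    · exact (hD w (hins i w h).1).1
  let t : Fin L.length → TW X ι := fun i =>
    (a i, ((PC i).map (fun w => w.2.1)).flatten, b i)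
  have hbase : ∀ i, IsCh (a i) (pc (d0 i) :: (d1 i :: rest i).map pc) (b i) := by
    intro i
    have h1 := trch (htr i)
    rw [hdec] at h1
    exact h1
  refine ⟨Multiset.ofList ((List.finRange L.length).map t), ?_, ?_, ?_, ?_, ?_⟩
  · -- sizes
    intro w hw
    simp only [Multiset.mem_coe, List.mem_map, List.mem_finRange, true_and] at hw
    obtain ⟨i, rfl⟩ := hw
    refine ⟨isCh_isW (hPCc i) (hPCok i), ha i, hb i, ?_⟩
    have hne : L.get i ≠ [] := by
      rw [hdec]
      simp
    have hends := isTr_mem (sp := sp) hG.2.2 (htr i) hne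
    have key : ∀ z ∈ 𝓔.tsup (t i), ∃ z' ∈ spL sp (L.get i), dist z z' ≤ δ := by
      rintro z (hz | hz)
      · have hz' : z ∈ 𝓔.supW ((PC i).map (fun w => w.2.1)).flatten := hz
        rw [EdgeSys.supW_flatten] at hz'
        obtain ⟨w0, hw0, hz0⟩ := hz'
        obtain ⟨w1, hw1, rfl⟩ := List.mem_map.1 hw0
        rcases List.mem_append.1 ((hPCp i).mem_iff.1 hw1) with h | h
        · obtain ⟨d, hd, rfl⟩ := List.mem_map.1 h
          refine ⟨z, ⟨d, hd, ?_⟩, by rw [dist_self]; exact hδ⟩
          have h2 : z ∈ 𝓔.supW (orient (f d.1) d.2).2.1 := hz0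
          rw [orient_sup] at h2
          exact Or.inl h2
        · obtain ⟨h2, q, hq, h3⟩ := hins i w1 h
          obtain ⟨d, hd, rfl⟩ := List.mem_map.1 hq
          refine ⟨w1.1, ⟨d, ?_, ?_⟩, ?_⟩
          · rw [hdec]
            exact List.mem_cons_of_mem _ hd
          · rw [← h3, pc1]
            unfold dsrc
            split_ifs
            · exact (hG.2.2 d.1).1
            · exact (hG.2.2 d.1).2
          · exact mem_closedBall.1 ((hD w1 h2).2.2.2 hz0)
      · rcases hz with hz | hz
        · refine ⟨a i, hends.1, ?_⟩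
          have : z = a i := hz
          rw [this, dist_self]
          exact hδ
        · refine ⟨b i, hends.2, ?_⟩
          have : z = b i := hz
          rw [this, dist_self]
          exact hδ
    intro y hy z hz
    obtain ⟨y', hy', h1⟩ := key y hy
    obtain ⟨z', hz', h2⟩ := key z hz
    have h3 := hL3 (L.get i) (List.get_mem _ _) y' hy' z' hz'
    have h4 := dist_triangle y y' z
    have h5 := dist_triangle y' z' z
    rw [dist_comm z z'] at h2
    linarith
  · -- assembling
    have e1 : EdgeSys.und (Multiset.ofList ((List.finRange L.length).map t)) =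
        Multiset.ofList (((List.finRange L.length).map
          (fun i => (PC i).map (fun w => w.2.1))).map List.flatten) := by
      unfold EdgeSys.und
      rw [Multiset.map_coe, List.map_map, List.map_map]
      rfl
    rw [e1]
    refine Asm.trans ?_ (asm_flat _)
    have e2 : ((List.finRange L.length).map (fun i => (PC i).map (fun w => w.2.1))).flatten.Perm
        (((List.finRange L.length).map (fun i => ((L.get i).map pc).map (fun w => w.2.1))).flatten ++
          ((List.finRange L.length).map (fun i => (ins i).map (fun w => w.2.1))).flatten) := by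
      refine perm_flat ?_ _
      intro i
      rw [← List.map_append]
      exact (hPCp i).map _
    rw [Multiset.coe_eq_coe.2 e2, ← Multiset.coe_add]
    refine Asm.add ?_ ?_
    · have e3 : ((List.finRange L.length).map
          (fun i => ((L.get i).map pc).map (fun w => w.2.1))).flatten =
          L.flatten.map (fun d => (orient (f d.1) d.2).2.1) := by
        have h1 : (List.finRange L.length).map
            (fun i => ((L.get i).map pc).map (fun w : TW X ι => w.2.1)) =
            ((List.finRange L.length).map L.get).map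
              (fun l => l.map (fun d => (orient (f d.1) d.2).2.1)) := by
          rw [List.map_map]
          refine List.map_congr_left ?_
          intro i _
          rw [List.map_map]
          rfl
        rw [h1, List.map_get_finRange, List.map_flatten]
      rw [e3]
      have e4 : EdgeSys.und P' = Multiset.ofList (L.flatten.map (fun d => (f d.1).2.1)) := by
        rw [← hPl]
        unfold EdgeSys.und
        rw [Multiset.map_coe]
        have h2 : Pl = (List.finRange n).map f := (List.map_get_finRange Pl).symm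
        have h3 : (L.flatten.map Prod.fst).Perm (List.finRange n) := by
          refine (List.perm_ext_iff_of_nodup hL2.1 (List.nodup_finRange n)).2 ?_
          intro e
          refine ⟨fun _ => List.mem_finRange e, fun _ => (hL2.2 e).2 (hfP e).2⟩
        rw [h2, List.map_map]
        have h4 := (h3.map ((fun w : TW X ι => w.2.1) ∘ f)).symm
        rw [List.map_map] at h4
        exact Multiset.coe_eq_coe.2 h4
      rw [e4]
      exact asm_orient (fun d : Fin n × Bool => f d.1) (fun d => d.2) L.flatten
    · refine Asm.of_eq ?_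
      have h1 : ((List.finRange L.length).map (fun i => (ins i).map (fun w => w.2.1))).flatten =
          (((List.finRange L.length).map (fun i =>
            (List.finRange Dl.length).filter (fun k => τ k = i))).flatten).map
              (fun k => (Dl.get k).2.1) := by
        rw [List.map_flatten, List.map_map]
        congr 1
        refine List.map_congr_left ?_
        intro i _
        simp only [ins, List.map_map, Function.comp_apply]
        rfl
      rw [h1]
      have h2 := (perm_fibers τ).map (fun k => (Dl.get k).2.1)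
      rw [Multiset.coe_eq_coe.2 h2, ← hDl]
      unfold EdgeSys.und
      rw [Multiset.map_coe]
      congr 1
      have h3 : Dl = (List.finRange Dl.length).map Dl.get := (List.map_get_finRange Dl).symm
      conv_lhs => rw [h3]
      rw [List.map_map]
      rfl
  · -- degrees
    intro v hv
    have hvU : v ∉ (↑U : Set X) := fun h => hAU v hv h
    rw [degW_map]
    have h1 : EdgeSys.degW P' v =
        EdgeSys.degW (Multiset.ofList (L.flatten.map pc)) v := by
      have h2 : Pl = (List.finRange n).map f := (List.map_get_finRange Pl).symm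
      have h3 : (L.flatten.map Prod.fst).Perm (List.finRange n) := by
        refine (List.perm_ext_iff_of_nodup hL2.1 (List.nodup_finRange n)).2 ?_
        intro e
        refine ⟨fun _ => List.mem_finRange e, fun _ => (hL2.2 e).2 (hfP e).2⟩
      have h4 := (h3.map f)
      rw [List.map_map] at h4
      have h5 : EdgeSys.degW (Multiset.ofList (L.flatten.map pc)) v =
          EdgeSys.degW (Multiset.ofList (L.flatten.map (f ∘ Prod.fst))) v :=
        degW_orient (fun d : Fin n × Bool => f d.1) (fun d => d.2) L.flatten v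
      rw [h5, Multiset.coe_eq_coe.2 h4, ← h2, hPl]
    have h6 : L.flatten.map pc =
        ((List.finRange L.length).map (fun i => (L.get i).map pc)).flatten := by
      rw [List.map_flatten]
      congr 1
      conv_lhs => rw [← List.map_get_finRange L]
      rw [List.map_map]
      rfl
    rw [h1, h6, degW_flat]
    congr 1
    refine List.map_congr_left ?_
    intro i _
    rw [hdec i]
    have h7 := degW_chain (U := (↑U : Set X)) hvU ((d1 i :: rest i).map pc) (pc (d0 i)) (a i) (b i)
      (hbase i) (by
        intro q hq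
        obtain ⟨d, hd, rfl⟩ := List.mem_map.1 hq
        rw [pc1]
        exact hinner i d hd)
    exact h7.symm
  · -- equivalence relations
    intro r hr w hw
    simp only [Multiset.mem_coe, List.mem_map, List.mem_finRange, true_and] at hw
    obtain ⟨i, rfl⟩ := hw
    refine isCh_rel r (hbase i) ?_
    intro q hq
    have : ∃ d, pc d = q := by
      rcases List.mem_cons.1 hq with h | h
      · exact ⟨_, h.symm⟩
      · obtain ⟨d, -, h⟩ := List.mem_map.1 h
        exact ⟨d, h⟩
    obtain ⟨d, rfl⟩ := this
    show r (orient (f d.1) d.2).1 (orient (f d.1) d.2).2.2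
    unfold orient
    split_ifs
    · exact hr _ (hfP d.1).1
    · exact r.symm (hr _ (hfP d.1).1)
  · -- non-closed walks
    intro w hw hne
    simp only [Multiset.mem_coe, List.mem_map, List.mem_finRange, true_and] at hw
    obtain ⟨i, rfl⟩ := hw
    have hne' : a i ≠ b i := hne
    refine ⟨dsrc src tgt (d1 i), hinner i _ List.mem_cons_self, (pc (d0 i)).2.1,
      ((l' i).map (fun w => w.2.1)).flatten, rfl, ?_, ?_⟩
    · have h1 := htr i
      rw [hdec, isTr_cons_iff, isTr_cons_iff] at h1
      have h2 := pcok (d0 i)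
      unfold EdgeSys.TWok at h2
      rw [pc1, pc2, ← h1.1, h1.2.1] at h2
      exact h2
    · intro hN'
      have hiO : i ∈ O (dsrc src tgt (d1 i)) := by
        simp only [O, Finset.mem_filter, Finset.mem_univ, true_and, and_true]
        rintro ⟨x, hx⟩
        have hne2 : L.get i ≠ [] := by
          rw [hdec]
          simp
        obtain ⟨h1, h2⟩ := isTr_unique hx (htr i) hne2
        exact hne' (h1.symm.trans h2)
      obtain ⟨k, hk, hk2⟩ := hg2 _ (by rw [hKc]; exact hN') i hiO
      have hk1 : (Dl.get k).1 = dsrc src tgt (d1 i) := by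
        simpa [Kf] using hk
      refine ⟨Dl.get k, hDm k, hk1, ?_⟩
      have hmem : Dl.get k ∈ PC i := by
        refine (hPCp i).mem_iff.2 (List.mem_append_right _ ?_)
        refine List.mem_map_of_mem ?_
        simp only [List.mem_filter, List.mem_finRange, true_and, decide_eq_true_eq]
        show g (Dl.get k).1 k = i
        rw [hk1]
        exact hk2
      intro x hx
      show x ∈ items ((PC i).map (fun w => w.2.1)).flatten
      rw [items_flatten, List.mem_flatten]
      exact ⟨items (Dl.get k).2.1, List.mem_map_of_mem (List.mem_map_of_mem hmem), hx⟩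

end main

end Pool.Agent.EU.H10
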